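import Mathlib

namespace Pool.Agent.Results.MP_670c4f_al.No

open Equiv

/-- `r(G)`: the least index `|𝒢(R) : G|` over all relations `R ⊆ P(Ω)` with `G ⊆ 𝒢(R)`, where
`𝒢(R)` is the group of all permutations `g` with `x^g ∈ R` for all `x ∈ R`. -/
noncomputable def relIdx {Ω : Type} (G : Subgroup (Perm Ω)) : ℕ :=
  sInf {n | ∃ (R : Set (Finset Ω)) (H : Subgroup (Perm Ω)),
    (∀ g, g ∈ H ↔ ∀ x ∈ R, x.map g.toEmbedding ∈ R) ∧ G ≤ H ∧ n = G.relIndex H}

/-- `G` is transitive and preserves a partition other than the two trivial ones. -/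
def Imprimitive {Ω : Type} (G : Subgroup (Perm Ω)) : Prop :=
  (∀ x y, ∃ g ∈ G, g x = y) ∧
    ∃ r : Setoid Ω, (∀ g ∈ G, ∀ x y, r x y → r (g x) (g y)) ∧ r ≠ ⊥ ∧ r ≠ ⊤

abbrev Z := ZMod 3
abbrev Om := Z × Z × Fin 4

def dir (p q : Fin 4) : Z :=
  if p.val + q.val = 3 then 2 else if (p.val + q.val) % 2 = 0 then 1 else 0

def Rot (f : Fin 4 → Fin 4) (a : Z) : Prop := ∀ p q, p ≠ q → dir (f p) (f q) = dir p q + a

instance (f : Fin 4 → Fin 4) (a : Z) : Decidable (Rot f a) := by unfold Rot; infer_instance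

def Good (g : Perm Om) (s : Z) (t : Z → Z) (a : Z → Z → Z) : Prop :=
  (∀ e i p, (g (e, i, p)).1 = e + s ∧ (g (e, i, p)).2.1 = i + t e) ∧
    ∀ e i, Rot (fun p => (g (e, i, p)).2.2) (a e i)

def WG (k : Z) (g : Perm Om) : Prop :=
  ∃ s t a, Good g s t a ∧ ∀ e, a e 0 + a e 1 + a e 2 = t 0 + t 1 + t 2 + k

lemma sum_shift : ∀ (f : Z → Z) (t : Z), f (0 + t) + f (1 + t) + f (2 + t) = f 0 + f 1 + f 2 := by
  decide

lemma Good.eq {g s t a} (h : Good g s t a) (e i p) :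
    g (e, i, p) = (e + s, i + t e, (g (e, i, p)).2.2) := by
  have := h.1 e i p
  ext <;> simp [this.1, this.2]

lemma Good.inj {g s t a} (h : Good g s t a) (e i) :
    Function.Injective (fun p => (g (e, i, p)).2.2) := by
  intro p q hpq
  have : g (e, i, p) = g (e, i, q) := by
    rw [h.eq e i p, h.eq e i q]; simp only at hpq; rw [hpq]
  have := g.injective this
  simpa using this

lemma WG.mul {k k' g g'} (h : WG k g) (h' : WG k' g') : WG (k + k') (g' * g) := by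
  obtain ⟨s, t, a, hg, hs⟩ := h
  obtain ⟨s', t', a', hg', hs'⟩ := h'
  refine ⟨s + s', fun e => t e + t' (e + s), fun e i => a e i + a' (e + s) (i + t e), ⟨?_, ?_⟩, ?_⟩
  · intro e i p
    rw [Perm.mul_apply, hg.eq e i p]
    have := hg'.1 (e + s) (i + t e) (g (e, i, p)).2.2
    exact ⟨by rw [this.1]; ring, by rw [this.2]; ring⟩
  · intro e i p q hpq
    have h1 := hg.2 e i p q hpq
    have h2 := hg'.2 (e + s) (i + t e) _ _ (fun hh => hpq (hg.inj e i hh))
    simp only [Perm.mul_apply] at h1 h2 ⊢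
    rw [hg.eq e i p, hg.eq e i q, h2, h1]; ring
  · intro e
    have h1 := hs e
    have h2 := hs' (e + s)
    have h3 := sum_shift (a' (e + s)) (t e)
    have h4 := sum_shift t' s
    simp only
    linear_combination h1 + h2 + h3 - h4

lemma rot_id : Rot (fun p => p) 0 := by decide

lemma WG.one : WG 0 1 :=
  ⟨0, fun _ => 0, fun _ _ => 0, ⟨fun _ _ _ => by simp, fun _ _ => rot_id⟩, fun _ => by simp⟩

def toSub (M : Submonoid (Perm Om)) : Subgroup (Perm Om) :=
  { M with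
    inv_mem' := fun {g} hg => by
      have h : g⁻¹ = g ^ (orderOf g - 1) := by
        apply inv_eq_of_mul_eq_one_right
        rw [← pow_succ', Nat.sub_add_cancel (orderOf_pos g), pow_orderOf_eq_one]
      rw [h]; exact M.pow_mem hg _ }

def GG : Subgroup (Perm Om) := toSub
  { carrier := {g | WG 0 g}
    mul_mem' := fun {a b} ha hb => by simpa using WG.mul hb ha
    one_mem' := WG.one }

def WW : Subgroup (Perm Om) := toSub
  { carrier := {g | ∃ k, WG k g}
    mul_mem' := fun {a b} ⟨_, ha⟩ ⟨_, hb⟩ => ⟨_, WG.mul hb ha⟩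
    one_mem' := ⟨_, WG.one⟩ }

lemma mem_GG {g} : g ∈ GG ↔ WG 0 g := Iff.rfl
lemma mem_WW {g} : g ∈ WW ↔ ∃ k, WG k g := Iff.rfl

def psi (g : Perm Om) : Z :=
  dir (g (0, 0, 0)).2.2 (g (0, 0, 1)).2.2 + dir (g (0, 1, 0)).2.2 (g (0, 1, 1)).2.2 +
    dir (g (0, 2, 0)).2.2 (g (0, 2, 1)).2.2 - (g (0, 0, 0)).2.1 - (g (1, 0, 0)).2.1 -
    (g (2, 0, 0)).2.1

lemma WG.psi_eq {k g} (h : WG k g) : psi g = k := by
  obtain ⟨s, t, a, hg, hs⟩ := h
  have d : dir 0 1 = 0 := by decide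
  have h0 := hg.2 0 0 0 1 (by decide)
  have h1 := hg.2 0 1 0 1 (by decide)
  have h2 := hg.2 0 2 0 1 (by decide)
  simp only [d] at h0 h1 h2
  unfold psi
  rw [h0, h1, h2, (hg.1 0 0 0).2, (hg.1 1 0 0).2, (hg.1 2 0 0).2]
  linear_combination hs 0

def mk (s : Z) (t : Z → Z) (f : Z → Z → Perm (Fin 4)) : Perm Om where
  toFun x := (x.1 + s, x.2.1 + t x.1, f x.1 x.2.1 x.2.2)
  invFun x := (x.1 - s, x.2.1 - t (x.1 - s), (f (x.1 - s) (x.2.1 - t (x.1 - s))).symm x.2.2)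
  left_inv x := by simp
  right_inv x := by simp

lemma mk_apply (s t f e i p) : mk s t f (e, i, p) = (e + s, i + t e, f e i p) := rfl

lemma good_mk (s t f) (a : Z → Z → Z) (h : ∀ e i, Rot (f e i) (a e i)) : Good (mk s t f) s t a :=
  ⟨fun _ _ _ => ⟨rfl, rfl⟩, h⟩

def psiHom : WW →* Multiplicative Z := MonoidHom.mk' (fun g => Multiplicative.ofAdd (psi g.1)) (by
  rintro ⟨a, k, ha⟩ ⟨b, k', hb⟩
  have := (WG.mul hb ha).psi_eq
  simp only [Subgroup.coe_mul, MulMemClass.mk_mul_mk]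
  rw [this, ha.psi_eq, hb.psi_eq, add_comm]; rfl)

lemma exists_WG (k : Z) : ∃ g, WG k g :=
  ⟨mk 0 (fun e => if e = 0 then -k else 0) (fun _ _ => 1), 0, _, fun _ _ => 0,
    good_mk _ _ _ _ (fun _ _ => rot_id), fun _ => by
      have h1 : (1 : Z) ≠ 0 := by decide
      have h2 : (2 : Z) ≠ 0 := by decide
      simp [h1, h2]⟩

lemma idx : GG.relIndex WW = 3 := by
  have h : GG.subgroupOf WW = psiHom.ker := by
    ext ⟨g, k, hg⟩
    rw [Subgroup.mem_subgroupOf, MonoidHom.mem_ker, mem_GG]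
    show WG 0 g ↔ Multiplicative.ofAdd (psi g) = 1
    rw [hg.psi_eq]
    constructor
    · intro h0
      have := h0.psi_eq
      rw [hg.psi_eq] at this
      rw [this]; rfl
    · intro h0
      have : k = 0 := h0
      rwa [this] at hg
  have hr : psiHom.range = ⊤ := by
    rw [MonoidHom.range_eq_top]
    intro k
    obtain ⟨g, hg⟩ := exists_WG (Multiplicative.toAdd k)
    exact ⟨⟨g, _, hg⟩, by
      show Multiplicative.ofAdd (psi g) = k
      rw [hg.psi_eq]; rfl⟩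
  unfold Subgroup.relIndex
  rw [h, Subgroup.index_ker, hr]
  simp

def two (S : Fin 4 → Bool) : Prop :=
  (S 0).toNat + (S 1).toNat + (S 2).toNat + (S 3).toNat = 2

instance (S : Fin 4 → Bool) : Decidable (two S) := by unfold two; infer_instance

def DD (S : Fin 4 → Bool) : Z := if S 0 = S 1 then 0 else if S 0 = S 2 then 1 else 2

def tr (X : Finset Om) (e i : Z) : Fin 4 → Bool := fun p => decide ((e, i, p) ∈ X)

lemma neutral : ∀ (S : Fin 4 → Bool) (k : Z), ¬ two S →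
    ∃ f : Perm (Fin 4), Rot f k ∧ ∀ p, S (f p) = S p := by decide +kernel

lemma transport : ∀ (S S' : Fin 4 → Bool), two S → two S' →
    ∃ f : Perm (Fin 4), Rot f (DD S' - DD S) ∧ ∀ p, S' (f p) = S p := by decide +kernel

lemma map_eq_of {g : Perm Om} {X : Finset Om} (h : ∀ x, g x ∈ X ↔ x ∈ X) :
    X.map g.toEmbedding = X := by
  ext y
  rw [Finset.mem_map_equiv, ← h, Equiv.apply_symm_apply]

lemma sum_ite : ∀ j k : Z, (if (0 : Z) = j then k else 0) + (if (1 : Z) = j then k else 0) +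
    (if (2 : Z) = j then k else 0) = k := by decide

lemma sum_ite' : ∀ j k : Z, (if (0 : Z) = j then -k else 0) + (if (1 : Z) = j then -k else 0) +
    (if (2 : Z) = j then -k else 0) + k = 0 := by decide

lemma stab (X : Finset Om) (k : Z) : ∃ h, WG k h ∧ X.map h.toEmbedding = X := by
  by_cases hA : ∀ e, ∃ i, ¬ two (tr X e i)
  · choose j hj using hA
    choose f hf using fun e => neutral _ k (hj e)
    refine ⟨mk 0 (fun _ => 0) (fun e i => if i = j e then f e else 1),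
      ⟨0, _, fun e i => if i = j e then k else 0, good_mk _ _ _ _ ?_, ?_⟩, map_eq_of ?_⟩
    · intro e i
      by_cases h : i = j e
      · simp only [h, if_true]; exact (hf e).1
      · simp only [h, if_false]; exact rot_id
    · intro e
      simp only [sum_ite]; ring
    · rintro ⟨e, i, p⟩
      rw [mk_apply]
      by_cases h : i = j e
      · have := (hf e).2 p
        simpa [h, tr] using this
      · simp [h]
  · push Not at hA
    obtain ⟨e0, h0⟩ := hA
    choose f hf using fun i => transport _ _ (h0 i) (h0 (i + -k))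
    refine ⟨mk 0 (fun e => if e = e0 then -k else 0) (fun e i => if e = e0 then f i else 1),
      ⟨0, _, fun e i => if e = e0 then DD (tr X e0 (i + -k)) - DD (tr X e0 i) else 0,
        good_mk _ _ _ _ ?_, ?_⟩, map_eq_of ?_⟩
    · intro e i
      by_cases h : e = e0
      · simp only [h, if_true]; exact (hf i).1
      · simp only [h, if_false]; exact rot_id
    · intro e
      rw [sum_ite']
      by_cases h : e = e0
      · simp only [h, if_true]
        linear_combination sum_shift (fun i => DD (tr X e0 i)) (-k)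
      · simp [h]
    · rintro ⟨e, i, p⟩
      rw [mk_apply]
      by_cases h : e = e0
      · have := (hf i).2 p
        simpa [h, tr] using this
      · simp [h]

lemma lower {R : Set (Finset Om)} {H : Subgroup (Perm Om)}
    (hH : ∀ g, g ∈ H ↔ ∀ x ∈ R, x.map g.toEmbedding ∈ R) (hG : GG ≤ H) : WW ≤ H := by
  rintro w ⟨k, hw⟩
  rw [hH]
  intro X hX
  obtain ⟨h, hh, hX'⟩ := stab X (-k)
  have h1 : w * h ∈ GG := by
    have := WG.mul hh hw
    rwa [neg_add_cancel] at this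
  have h2 := (hH _).1 (hG h1) X hX
  have h3 : X.map (w * h).toEmbedding = X.map w.toEmbedding := by
    conv_rhs => rw [← hX']
    rw [Finset.map_map]; rfl
  rwa [h3] at h2

lemma GG_le : GG ≤ WW := fun _ h => ⟨0, h⟩

lemma lower_idx {R : Set (Finset Om)} {H : Subgroup (Perm Om)}
    (hH : ∀ g, g ∈ H ↔ ∀ x ∈ R, x.map g.toEmbedding ∈ R) (hG : GG ≤ H) : 3 ≤ GG.relIndex H := by
  have h := Subgroup.relIndex_mul_relIndex GG WW H GG_le (lower hH hG)
  have h0 : GG.relIndex H ≠ 0 := Subgroup.index_ne_zero_of_finite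
  rw [idx] at h
  omega

lemma klein : ∀ p q : Fin 4, ∃ f : Perm (Fin 4), Rot f 0 ∧ f p = q := by decide +kernel

lemma tsum : ∀ e d : Z, (if (0 : Z) = e then d else if (0 : Z) = e + 1 then -d else 0) +
    (if (1 : Z) = e then d else if (1 : Z) = e + 1 then -d else 0) +
    (if (2 : Z) = e then d else if (2 : Z) = e + 1 then -d else 0) = 0 := by decide

lemma imprim : Imprimitive GG := by
  constructor
  · rintro ⟨e, i, p⟩ ⟨e', i', p'⟩
    obtain ⟨f, hf, hp⟩ := klein p p'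
    refine ⟨mk (e' - e) (fun c => if c = e then i' - i else if c = e + 1 then -(i' - i) else 0)
      (fun _ _ => f), ⟨_, _, fun _ _ => 0, good_mk _ _ _ _ (fun _ _ => hf), ?_⟩, ?_⟩
    · intro c
      rw [tsum]; simp
    · rw [mk_apply]; simp [hp]
  · refine ⟨Setoid.ker Prod.fst, ?_, ?_, ?_⟩
    · rintro g ⟨s, t, a, hg, -⟩ ⟨e, i, p⟩ ⟨e', i', p'⟩ h
      have h' : e = e' := h
      show (g (e, i, p)).1 = (g (e', i', p')).1
      rw [(hg.1 e i p).1, (hg.1 e' i' p').1, h']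
    · intro h
      have : (⊥ : Setoid Om) (0, 0, 0) (0, 0, 1) := by rw [← h]; exact rfl
      have h2 : ((0, 0, 0) : Om) = (0, 0, 1) := this
      exact absurd h2 (by decide)
    · intro h
      have : (Setoid.ker (Prod.fst : Om → Z)) (0, 0, 0) (1, 0, 0) := by rw [h]; trivial
      have h2 : (0 : Z) = 1 := this
      exact absurd h2 (by decide)

def SRot (f : Fin 4 → Fin 4) (u a : Z) : Prop :=
  ∀ p q, p ≠ q → dir (f p) (f q) = u * dir p q + a

instance (f : Fin 4 → Fin 4) (u a : Z) : Decidable (SRot f u a) := by unfold SRot; infer_instance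

lemma L1 : ∀ f : Fin 4 → Fin 4, (∀ p q, f p = f q → p = q) → ∃ u a, SRot f u a := by
  decide +kernel

lemma L2 : ∀ f : Fin 4 → Fin 4, (∀ p q, f p = f q → p = q) → ∀ u a, SRot f u a →
    ∀ S S' : Fin 4 → Bool, (∀ p, S' (f p) = S p) →
      (two S' ↔ two S) ∧ (two S → DD S' = u * DD S + a) := by
  decide +kernel

def Pre (g : Perm Om) (s : Z) (t : Z → Z) : Prop :=
  ∀ e i p, (g (e, i, p)).1 = e + s ∧ (g (e, i, p)).2.1 = i + t e

lemma Pre.eq {g s t} (h : Pre g s t) (e i p) :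
    g (e, i, p) = (e + s, i + t e, (g (e, i, p)).2.2) := by
  have := h e i p
  ext <;> simp [this.1, this.2]

lemma Pre.inj {g s t} (h : Pre g s t) (e i) (p q : Fin 4)
    (hpq : (g (e, i, p)).2.2 = (g (e, i, q)).2.2) : p = q := by
  have : g (e, i, p) = g (e, i, q) := by
    rw [h.eq e i p, h.eq e i q, hpq]
  have := g.injective this
  simpa using this

lemma Pre.surj {g s t} (h : Pre g s t) (e i) (q : Fin 4) :
    ∃ p, g (e, i, p) = (e + s, i + t e, q) := by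
  have : Function.Surjective (fun p => (g (e, i, p)).2.2) :=
    Finite.injective_iff_surjective.1 (fun p q hh => h.inj e i p q hh)
  obtain ⟨p, hp⟩ := this q
  exact ⟨p, by rw [h.eq e i p]; simp only at hp; rw [hp]⟩

lemma mem_map' (g : Perm Om) (X : Finset Om) (x : Om) : g x ∈ X.map g.toEmbedding ↔ x ∈ X := by
  rw [Finset.mem_map_equiv, Equiv.symm_apply_apply]

lemma Pre.tr_map {g s t} (h : Pre g s t) (X : Finset Om) (e i p) :
    tr (X.map g.toEmbedding) (e + s) (i + t e) (g (e, i, p)).2.2 = tr X e i p := by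
  unfold tr
  rw [← h.eq e i p]
  simp only [mem_map']

def sD (X : Finset Om) (e : Z) : Z := DD (tr X e 0) + DD (tr X e 1) + DD (tr X e 2)

lemma Pre.two_iff {g s t} (h : Pre g s t) (X : Finset Om) (e i) :
    two (tr (X.map g.toEmbedding) (e + s) (i + t e)) ↔ two (tr X e i) := by
  obtain ⟨u, a, hu⟩ := L1 _ (h.inj e i)
  exact (L2 _ (h.inj e i) u a hu _ _ (h.tr_map X e i)).1

lemma Pre.sD_map {g s t} (h : Pre g s t) {u a : Z → Z → Z}
    (hu : ∀ e i, SRot (fun p => (g (e, i, p)).2.2) (u e i) (a e i)) (X : Finset Om) (e)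
    (h2 : ∀ j, two (tr X e j)) :
    sD (X.map g.toEmbedding) (e + s) = u e 0 * DD (tr X e 0) + u e 1 * DD (tr X e 1) +
      u e 2 * DD (tr X e 2) + (a e 0 + a e 1 + a e 2) := by
  have h3 := fun j => (L2 _ (h.inj e j) _ _ (hu e j) _ _ (h.tr_map X e j)).2 (h2 j)
  have h4 := sum_shift (fun j => DD (tr (X.map g.toEmbedding) (e + s) j)) (t e)
  unfold sD
  linear_combination h3 0 + h3 1 + h3 2 - h4

def PA (X : Finset Om) : Prop := ∀ x ∈ X, ∀ y ∈ X, x.1 = y.1 ∧ x.2.1 = y.2.1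
def PB (X : Finset Om) : Prop := ∃ x ∈ X, ∀ p, (x.1, x.2.1 + 1, p) ∈ X
def PC (X : Finset Om) : Prop := ∃ x ∈ X, ∀ i p, (x.1 + 1, i, p) ∈ X
def PD (c : Z) (X : Finset Om) : Prop :=
  ∃ e, (∀ i, two (tr X e i)) ∧ (∀ i, two (tr X (e + 1) i)) ∧ sD X e = sD X (e + 1) + c

def RR : Set (Finset Om) :=
  {X | (X.card = 2 ∧ PA X) ∨ (X.card = 5 ∧ PB X) ∨ (X.card = 13 ∧ PC X) ∨
    (X.card = 12 ∧ PD 0 X) ∨ (X.card = 24 ∧ PD 1 X)}

lemma inv_PD {k g c X} (h : WG k g) (hX : PD c X) : PD c (X.map g.toEmbedding) := by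
  obtain ⟨s, t, a, hg, hs⟩ := h
  have hp : Pre g s t := hg.1
  obtain ⟨e, h1, h2, h3⟩ := hX
  have hu : ∀ e i, SRot (fun p => (g (e, i, p)).2.2) ((fun _ _ => 1) e i) (a e i) := by
    intro e i p q hpq
    rw [one_mul]; exact hg.2 e i p q hpq
  have e1 : e + s + 1 = e + 1 + s := by ring
  refine ⟨e + s, fun i => ?_, fun i => ?_, ?_⟩
  · have := (hp.two_iff X e (i - t e)).2 (h1 _)
    rwa [sub_add_cancel] at this
  · have := (hp.two_iff X (e + 1) (i - t (e + 1))).2 (h2 _)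
    rwa [sub_add_cancel, ← e1] at this
  · rw [e1, hp.sD_map hu X e h1, hp.sD_map hu X (e + 1) h2]
    unfold sD at h3
    linear_combination h3 + hs e - hs (e + 1)

lemma inv_RR {k g} (h : WG k g) : ∀ X ∈ RR, X.map g.toEmbedding ∈ RR := by
  intro X hX
  have h' := h
  obtain ⟨s, t, a, hg, hs⟩ := h'
  have hp : Pre g s t := hg.1
  rcases hX with ⟨hc, hX⟩ | ⟨hc, hX⟩ | ⟨hc, hX⟩ | ⟨hc, hX⟩ | ⟨hc, hX⟩
  · refine Or.inl ⟨by rw [Finset.card_map, hc], ?_⟩
    intro x hx y hy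
    obtain ⟨⟨e, i, p⟩, hx', rfl⟩ := Finset.mem_map.1 hx
    obtain ⟨⟨e', i', p'⟩, hy', rfl⟩ := Finset.mem_map.1 hy
    obtain ⟨h1, h2⟩ := hX _ hx' _ hy'
    simp only at h1 h2
    subst h1 h2
    exact ⟨(hp e i p).1.trans (hp e i p').1.symm, (hp e i p).2.trans (hp e i p').2.symm⟩
  · refine Or.inr (Or.inl ⟨by rw [Finset.card_map, hc], ?_⟩)
    obtain ⟨⟨e, i, p⟩, hx, hX⟩ := hX
    refine ⟨g (e, i, p), (mem_map' _ _ _).2 hx, fun q => ?_⟩
    obtain ⟨q', hq⟩ := hp.surj e (i + 1) q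
    have := (mem_map' g _ _).2 (hX q')
    rw [hq] at this
    rw [(hp e i p).1, (hp e i p).2, add_right_comm]
    exact this
  · refine Or.inr (Or.inr (Or.inl ⟨by rw [Finset.card_map, hc], ?_⟩))
    obtain ⟨⟨e, i, p⟩, hx, hX⟩ := hX
    refine ⟨g (e, i, p), (mem_map' _ _ _).2 hx, fun j q => ?_⟩
    obtain ⟨q', hq⟩ := hp.surj (e + 1) (j - t (e + 1)) q
    have := (mem_map' g _ _).2 (hX (j - t (e + 1)) q')
    rw [hq, sub_add_cancel] at this
    rw [(hp e i p).1, add_right_comm]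
    exact this
  · exact Or.inr (Or.inr (Or.inr (Or.inl ⟨by rw [Finset.card_map, hc], inv_PD h hX⟩)))
  · exact Or.inr (Or.inr (Or.inr (Or.inr ⟨by rw [Finset.card_map, hc], inv_PD h hX⟩)))

section conv
variable {g : Perm Om} (hR : ∀ X ∈ RR, X.map g.toEmbedding ∈ RR)
include hR

lemma cA (e i : Z) (p q : Fin 4) :
    (g (e, i, p)).1 = (g (e, i, q)).1 ∧ (g (e, i, p)).2.1 = (g (e, i, q)).2.1 := by
  by_cases hpq : p = q
  · rw [hpq]; exact ⟨rfl, rfl⟩
  have hc : ({(e, i, p), (e, i, q)} : Finset Om).card = 2 :=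
    Finset.card_pair (by simpa using hpq)
  have h := hR {(e, i, p), (e, i, q)} (Or.inl ⟨hc, by
    intro x hx y hy
    simp only [Finset.mem_insert, Finset.mem_singleton] at hx hy
    rcases hx with rfl | rfl <;> rcases hy with rfl | rfl <;> exact ⟨rfl, rfl⟩⟩)
  have hc' := Finset.card_map (s := ({(e, i, p), (e, i, q)} : Finset Om)) g.toEmbedding
  rcases h with ⟨-, h⟩ | ⟨h, -⟩ | ⟨h, -⟩ | ⟨h, -⟩ | ⟨h, -⟩
  · exact h _ ((mem_map' _ _ _).2 (by simp)) _ ((mem_map' _ _ _).2 (by simp))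
  all_goals omega

end conv

def TB (e i : Z) : Finset Om :=
  Finset.univ.filter (fun y => y = (e, i, 0) ∨ (y.1 = e ∧ y.2.1 = i + 1))
def TC (e : Z) : Finset Om := Finset.univ.filter (fun y => y = (e, 0, 0) ∨ y.1 = e + 1)
def T0 (e : Z) : Finset Om :=
  Finset.univ.filter (fun y => y.1 ≠ e + 2 ∧ (y.2.2 = 0 ∨ y.2.2 = 1))
def T1 (e i : Z) : Finset Om :=
  Finset.univ.filter (fun y => y.1 = e + 2 ∨ y.2.2 = 0 ∨
    y.2.2 = if y.1 = e ∧ y.2.1 = i then 2 else 1)

lemma cardTB : ∀ e i, (TB e i).card = 5 := by decide +kernel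
lemma cardTC : ∀ e, (TC e).card = 13 := by decide +kernel
lemma factT0 : ∀ e, (T0 e).card = 12 ∧ ¬ two (tr (T0 e) (e + 2) 0) ∧
    (∀ j, two (tr (T0 e) e j)) ∧ (∀ j, two (tr (T0 e) (e + 1) j)) ∧
    (∀ j, DD (tr (T0 e) e j) = 0) ∧ (∀ j, DD (tr (T0 e) (e + 1) j) = 0) := by decide +kernel
lemma factT1 : ∀ e i, (T1 e i).card = 24 ∧ ¬ two (tr (T1 e i) (e + 2) 0) ∧
    (∀ j, two (tr (T1 e i) e j)) ∧ (∀ j, two (tr (T1 e i) (e + 1) j)) ∧
    (∀ j, DD (tr (T1 e i) e j) = if j = i then 1 else 0) ∧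
    (∀ j, DD (tr (T1 e i) (e + 1) j) = 0) := by decide +kernel

lemma z_ne : ∀ x : Z, x + 1 ≠ x := by decide
lemma z_cases : ∀ x : Z, x = 0 ∨ x = 0 + 1 ∨ x = 0 + 1 + 1 := by decide
lemma z_mid : ∀ x y : Z, x ≠ y + 2 → x + 1 ≠ y + 2 → x = y := by decide
lemma z_sel : ∀ (u : Z → Z) (i : Z), u 0 * (if (0 : Z) = i then 1 else 0) +
    u 1 * (if (1 : Z) = i then 1 else 0) + u 2 * (if (2 : Z) = i then 1 else 0) = u i := by decide
lemma z_one : ∀ i : Z, (if (0 : Z) = i then (1 : Z) else 0) +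
    (if (1 : Z) = i then 1 else 0) + (if (2 : Z) = i then 1 else 0) = 1 := by decide

lemma key {g s t} (h : Pre g s t) {u a : Z → Z → Z}
    (hu : ∀ e i, SRot (fun p => (g (e, i, p)).2.2) (u e i) (a e i)) {X : Finset Om} {e c : Z}
    (h0 : ¬ two (tr X (e + 2) 0)) (hX : PD c (X.map g.toEmbedding)) :
    sD (X.map g.toEmbedding) (e + s) = sD (X.map g.toEmbedding) (e + 1 + s) + c := by
  obtain ⟨e', h1, h2, h3⟩ := hX
  have h4 := mt (h.two_iff X (e + 2) 0).1 h0
  have e1 : e + 2 + s = e + s + 2 := by ring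
  have e2 : e + 1 + s = e + s + 1 := by ring
  rw [e1] at h4
  have : e' = e + s := z_mid _ _ (fun hh => h4 (hh ▸ h1 _)) (fun hh => h4 (hh ▸ h2 _))
  rw [e2, ← this]; exact h3

section conv2
variable {g : Perm Om} (hR : ∀ X ∈ RR, X.map g.toEmbedding ∈ RR)
include hR

lemma cB (e i : Z) :
    (g (e, i + 1, 0)).1 = (g (e, i, 0)).1 ∧ (g (e, i + 1, 0)).2.1 = (g (e, i, 0)).2.1 + 1 := by
  have hc := cardTB e i
  have h := hR (TB e i) (Or.inr (Or.inl ⟨hc, (e, i, 0), by simp [TB], by simp [TB]⟩))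
  have hc' := Finset.card_map (s := TB e i) g.toEmbedding
  have hm : ∀ y ∈ (TB e i).map g.toEmbedding, y = g (e, i, 0) ∨
      (y.1 = (g (e, i + 1, 0)).1 ∧ y.2.1 = (g (e, i + 1, 0)).2.1) := by
    intro y hy
    obtain ⟨⟨e', i', p⟩, hz, rfl⟩ := Finset.mem_map.1 hy
    simp only [TB, Finset.mem_filter, Finset.mem_univ, true_and] at hz
    rcases hz with hz | ⟨h1, h2⟩
    · left; rw [hz]; rfl
    · right; subst h1 h2; exact cA hR _ _ _ _
  rcases h with ⟨h, -⟩ | ⟨-, h⟩ | ⟨h, -⟩ | ⟨h, -⟩ | ⟨h, -⟩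
  · omega
  · obtain ⟨x, hx, hp⟩ := h
    have h1 : x.1 = (g (e, i + 1, 0)).1 ∧ x.2.1 + 1 = (g (e, i + 1, 0)).2.1 := by
      rcases hm _ (hp 0) with h0 | h0
      · rcases hm _ (hp 1) with h1 | h1
        · rw [← h0] at h1; simp at h1
        · exact h1
      · exact h0
    rcases hm _ hx with h2 | h2
    · rw [← h2]; exact ⟨h1.1.symm, h1.2.symm⟩
    · exact absurd (h1.2.trans h2.2.symm) (z_ne _)
  all_goals omega

lemma cL (e i : Z) (p : Fin 4) :
    (g (e, i, p)).1 = (g (e, 0, 0)).1 ∧ (g (e, i, p)).2.1 = i + (g (e, 0, 0)).2.1 := by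
  have h0 := cA hR e i p 0
  have h1 := cB hR e 0
  have h2 := cB hR e (0 + 1)
  rw [h0.1, h0.2]
  rcases z_cases i with rfl | rfl | rfl
  · simp
  · exact ⟨h1.1, by rw [h1.2]; ring⟩
  · exact ⟨h2.1.trans h1.1, by rw [h2.2, h1.2]; ring⟩

lemma cC (e : Z) : (g (e + 1, 0, 0)).1 = (g (e, 0, 0)).1 + 1 := by
  have hc := cardTC e
  have h := hR (TC e) (Or.inr (Or.inr (Or.inl ⟨hc, (e, 0, 0), by simp [TC], by simp [TC]⟩)))
  have hc' := Finset.card_map (s := TC e) g.toEmbedding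
  have hm : ∀ y ∈ (TC e).map g.toEmbedding, y = g (e, 0, 0) ∨ y.1 = (g (e + 1, 0, 0)).1 := by
    intro y hy
    obtain ⟨⟨e', i', p⟩, hz, rfl⟩ := Finset.mem_map.1 hy
    simp only [TC, Finset.mem_filter, Finset.mem_univ, true_and] at hz
    rcases hz with hz | h1
    · left; rw [hz]; rfl
    · right; subst h1; exact (cL hR _ _ _).1
  rcases h with ⟨h, -⟩ | ⟨h, -⟩ | ⟨-, h⟩ | ⟨h, -⟩ | ⟨h, -⟩
  · omega
  · omega
  · obtain ⟨x, hx, hp⟩ := h
    have h1 : x.1 + 1 = (g (e + 1, 0, 0)).1 := by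
      rcases hm _ (hp 0 0) with h0 | h0
      · rcases hm _ (hp 0 1) with h1 | h1
        · rw [← h0] at h1; simp at h1
        · exact h1
      · exact h0
    rcases hm _ hx with h2 | h2
    · rw [← h2]; exact h1.symm
    · exact absurd (h1.trans h2.symm) (z_ne _)
  all_goals omega

lemma cPre : Pre g (g (0, 0, 0)).1 (fun e => (g (e, 0, 0)).2.1) := by
  intro e i p
  refine ⟨?_, (cL hR e i p).2⟩
  rw [(cL hR e i p).1]
  have h1 := cC hR 0
  have h2 := cC hR (0 + 1)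
  rcases z_cases e with rfl | rfl | rfl
  · simp
  · rw [h1]; ring
  · rw [h2, h1]; ring

lemma cW : g ∈ WW := by
  have hp := cPre hR
  choose u a hu using fun e i => L1 _ (hp.inj e i)
  have hA : ∀ e, a e 0 + a e 1 + a e 2 = a (e + 1) 0 + a (e + 1) 1 + a (e + 1) 2 := by
    intro e
    obtain ⟨hc, h0, h1, h2, h3, h4⟩ := factT0 e
    have h := hR (T0 e) (Or.inr (Or.inr (Or.inr (Or.inl ⟨hc, e, h1, h2, by
      simp only [sD, h3, h4, add_zero]⟩))))
    have hc' := Finset.card_map (s := T0 e) g.toEmbedding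
    rcases h with ⟨h, -⟩ | ⟨h, -⟩ | ⟨h, -⟩ | ⟨-, h⟩ | ⟨h, -⟩
    · omega
    · omega
    · omega
    · have := key hp hu h0 h
      rw [hp.sD_map hu _ e h1, hp.sD_map hu _ (e + 1) h2] at this
      simp only [h3, h4, mul_zero] at this
      linear_combination this
    · omega
  have hU : ∀ e i, u e i = 1 := by
    intro e i
    obtain ⟨hc, h0, h1, h2, h3, h4⟩ := factT1 e i
    have h := hR (T1 e i) (Or.inr (Or.inr (Or.inr (Or.inr ⟨hc, e, h1, h2, by
      simp only [sD, h3, h4, z_one, add_zero, zero_add]⟩))))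
    have hc' := Finset.card_map (s := T1 e i) g.toEmbedding
    rcases h with ⟨h, -⟩ | ⟨h, -⟩ | ⟨h, -⟩ | ⟨h, -⟩ | ⟨-, h⟩
    · omega
    · omega
    · omega
    · omega
    · have := key hp hu h0 h
      rw [hp.sD_map hu _ e h1, hp.sD_map hu _ (e + 1) h2] at this
      simp only [h3, h4, mul_zero] at this
      rw [z_sel] at this
      linear_combination this - hA e
  refine ⟨a 0 0 + a 0 1 + a 0 2 - ((g (0, 0, 0)).2.1 + (g (1, 0, 0)).2.1 + (g (2, 0, 0)).2.1),
    _, _, a, ⟨hp, fun e i p q hpq => ?_⟩, fun e => ?_⟩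
  · have := hu e i p q hpq
    rwa [hU, one_mul] at this
  · have h1 := hA 0
    have h2 := hA (0 + 1)
    rcases z_cases e with rfl | rfl | rfl
    · ring
    · linear_combination -h1
    · linear_combination -h1 - h2

end conv2

lemma upper : ∀ g, g ∈ WW ↔ ∀ x ∈ RR, x.map g.toEmbedding ∈ RR :=
  fun _ => ⟨fun ⟨_, h⟩ => inv_RR h, fun h => cW h⟩

theorem result : ∃ (Ω : Type) (_ : Fintype Ω) (G : Subgroup (Perm Ω)),
    Imprimitive G ∧ relIdx G = 3 := by
  refine ⟨Om, inferInstance, GG, imprim, le_antisymm ?_ ?_⟩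
  · exact Nat.sInf_le ⟨RR, WW, upper, GG_le, idx.symm⟩
  · apply le_csInf
    · exact ⟨3, RR, WW, upper, GG_le, idx.symm⟩
    · rintro n ⟨R, H, hH, hG, rfl⟩
      exact lower_idx hH hG

end Pool.Agent.Results.MP_670c4f_al.No
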